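import Pool.Agent.MCD.Hlp
import Pool.Agent.MCA.CSQ
import Pool.Agent.MCD.S2.R
import Pool.Agent.MCD.S2.B00
import Pool.Agent.MCD.S2.B01
import Pool.Agent.MCD.S2.B02
import Pool.Agent.MCD.S2.B03
import Pool.Agent.MCD.S2.B04
import Pool.Agent.MCD.S2.B05
import Pool.Agent.MCD.S2.B06
import Pool.Agent.MCD.S2.B07
import Pool.Agent.MCD.S2.B08
import Pool.Agent.MCD.S2.B09
import Pool.Agent.MCD.S2.B10
/-!
Cell S2. The certificate of the square.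
-/
set_option autoImplicit false

namespace Pool.Agent.MCD.S2
open Pool.Agent.MSQ Pool.Agent.MTR Pool.Agent.PKD Pool.Agent.MCA

def LC0 : List (List Bw) := [[kC0_0, kC0_1, kC0_2, kC0_3, kC0_4],
  [kC0_5, kC0_6, kC0_7, kC0_8, kC0_9],
  [kC0_10, kC0_11, kC0_12, kC0_13, kC0_14],
  [kC0_15, kC0_16, kC0_17, kC0_18, kC0_19],
  [kC0_20, kC0_21, kC0_22, kC0_23, kC0_24],
  [kC0_25, kC0_26, kC0_27, kC0_28, kC0_29],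
  [kC0_30, kC0_31, kC0_32, kC0_33, kC0_34],
  [kC0_35, kC0_36, kC0_37, kC0_38, kC0_39, kC0_40],
  [kC0_41, kC0_42, kC0_43, kC0_44, kC0_45, kC0_46]]

theorem cC0_0 : ∀ b ∈ ([kC0_0, kC0_1, kC0_2, kC0_3, kC0_4] : List Bw), BoxOK rC0 (MCA.rA (81 * 177147) 4782969 gC0 lC0) (itB b) :=
  (al_cons (bok _ dC0_0 _ _ dC0_0_ok RC0_ok _ kC0_0_ok) (al_cons (bok _ dC0_0 _ _ dC0_0_ok RC0_ok _ kC0_1_ok) (al_cons (bok _ dC0_0 _ _ dC0_0_ok RC0_ok _ kC0_2_ok) (al_cons (bok _ dC0_0 _ _ dC0_0_ok RC0_ok _ kC0_3_ok) (al_cons (bok _ dC0_0 _ _ dC0_0_ok RC0_ok _ kC0_4_ok) al_nil)))))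

theorem cC0_1 : ∀ b ∈ ([kC0_5, kC0_6, kC0_7, kC0_8, kC0_9] : List Bw), BoxOK rC0 (MCA.rA (81 * 177147) 4782969 gC0 lC0) (itB b) :=
  (al_cons (bok _ dC0_0 _ _ dC0_0_ok RC0_ok _ kC0_5_ok) (al_cons (bok _ dC0_0 _ _ dC0_0_ok RC0_ok _ kC0_6_ok) (al_cons (bok _ dC0_0 _ _ dC0_0_ok RC0_ok _ kC0_7_ok) (al_cons (bok _ dC0_0 _ _ dC0_0_ok RC0_ok _ kC0_8_ok) (al_cons (bok _ dC0_0 _ _ dC0_0_ok RC0_ok _ kC0_9_ok) al_nil)))))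

theorem cC0_2 : ∀ b ∈ ([kC0_10, kC0_11, kC0_12, kC0_13, kC0_14] : List Bw), BoxOK rC0 (MCA.rA (81 * 177147) 4782969 gC0 lC0) (itB b) :=
  (al_cons (bok _ dC0_0 _ _ dC0_0_ok RC0_ok _ kC0_10_ok) (al_cons (bok _ dC0_0 _ _ dC0_0_ok RC0_ok _ kC0_11_ok) (al_cons (bok _ dC0_0 _ _ dC0_0_ok RC0_ok _ kC0_12_ok) (al_cons (bok _ dC0_0 _ _ dC0_0_ok RC0_ok _ kC0_13_ok) (al_cons (bok _ dC0_0 _ _ dC0_0_ok RC0_ok _ kC0_14_ok) al_nil)))))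

theorem cC0_3 : ∀ b ∈ ([kC0_15, kC0_16, kC0_17, kC0_18, kC0_19] : List Bw), BoxOK rC0 (MCA.rA (81 * 177147) 4782969 gC0 lC0) (itB b) :=
  (al_cons (bok _ dC0_0 _ _ dC0_0_ok RC0_ok _ kC0_15_ok) (al_cons (bok _ dC0_0 _ _ dC0_0_ok RC0_ok _ kC0_16_ok) (al_cons (bok _ dC0_0 _ _ dC0_0_ok RC0_ok _ kC0_17_ok) (al_cons (bok _ dC0_0 _ _ dC0_0_ok RC0_ok _ kC0_18_ok) (al_cons (bok _ dC0_0 _ _ dC0_0_ok RC0_ok _ kC0_19_ok) al_nil)))))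

theorem cC0_4 : ∀ b ∈ ([kC0_20, kC0_21, kC0_22, kC0_23, kC0_24] : List Bw), BoxOK rC0 (MCA.rA (81 * 177147) 4782969 gC0 lC0) (itB b) :=
  (al_cons (bok _ dC0_0 _ _ dC0_0_ok RC0_ok _ kC0_20_ok) (al_cons (bok _ dC0_0 _ _ dC0_0_ok RC0_ok _ kC0_21_ok) (al_cons (bok _ dC0_0 _ _ dC0_0_ok RC0_ok _ kC0_22_ok) (al_cons (bok _ dC0_0 _ _ dC0_0_ok RC0_ok _ kC0_23_ok) (al_cons (bok _ dC0_0 _ _ dC0_0_ok RC0_ok _ kC0_24_ok) al_nil)))))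

theorem cC0_5 : ∀ b ∈ ([kC0_25, kC0_26, kC0_27, kC0_28, kC0_29] : List Bw), BoxOK rC0 (MCA.rA (81 * 177147) 4782969 gC0 lC0) (itB b) :=
  (al_cons (bok _ dC0_1 _ _ dC0_1_ok RC0_ok _ kC0_25_ok) (al_cons (bok _ dC0_0 _ _ dC0_0_ok RC0_ok _ kC0_26_ok) (al_cons (bok _ dC0_0 _ _ dC0_0_ok RC0_ok _ kC0_27_ok) (al_cons (bok _ dC0_0 _ _ dC0_0_ok RC0_ok _ kC0_28_ok) (al_cons (bok _ dC0_0 _ _ dC0_0_ok RC0_ok _ kC0_29_ok) al_nil)))))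

theorem cC0_6 : ∀ b ∈ ([kC0_30, kC0_31, kC0_32, kC0_33, kC0_34] : List Bw), BoxOK rC0 (MCA.rA (81 * 177147) 4782969 gC0 lC0) (itB b) :=
  (al_cons (bok _ dC0_1 _ _ dC0_1_ok RC0_ok _ kC0_30_ok) (al_cons (bok _ dC0_1 _ _ dC0_1_ok RC0_ok _ kC0_31_ok) (al_cons (bok _ dC0_1 _ _ dC0_1_ok RC0_ok _ kC0_32_ok) (al_cons (bok _ dC0_1 _ _ dC0_1_ok RC0_ok _ kC0_33_ok) (al_cons (bok _ dC0_0 _ _ dC0_0_ok RC0_ok _ kC0_34_ok) al_nil)))))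

theorem cC0_7 : ∀ b ∈ ([kC0_35, kC0_36, kC0_37, kC0_38, kC0_39, kC0_40] : List Bw), BoxOK rC0 (MCA.rA (81 * 177147) 4782969 gC0 lC0) (itB b) :=
  (al_cons (bok _ dC0_1 _ _ dC0_1_ok RC0_ok _ kC0_35_ok) (al_cons (bok _ dC0_1 _ _ dC0_1_ok RC0_ok _ kC0_36_ok) (al_cons (bok _ dC0_1 _ _ dC0_1_ok RC0_ok _ kC0_37_ok) (al_cons (bok _ dC0_1 _ _ dC0_1_ok RC0_ok _ kC0_38_ok) (al_cons (bok _ dC0_1 _ _ dC0_1_ok RC0_ok _ kC0_39_ok) (al_cons (bok _ dC0_1 _ _ dC0_1_ok RC0_ok _ kC0_40_ok) al_nil))))))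

theorem cC0_8 : ∀ b ∈ ([kC0_41, kC0_42, kC0_43, kC0_44, kC0_45, kC0_46] : List Bw), BoxOK rC0 (MCA.rA (81 * 177147) 4782969 gC0 lC0) (itB b) :=
  (al_cons (bok _ dC0_1 _ _ dC0_1_ok RC0_ok _ kC0_41_ok) (al_cons (bok _ dC0_1 _ _ dC0_1_ok RC0_ok _ kC0_42_ok) (al_cons (bok _ dC0_1 _ _ dC0_1_ok RC0_ok _ kC0_43_ok) (al_cons (bok _ dC0_1 _ _ dC0_1_ok RC0_ok _ kC0_44_ok) (al_cons (bok _ dC0_1 _ _ dC0_1_ok RC0_ok _ kC0_45_ok) (al_cons (bok _ dC0_1 _ _ dC0_1_ok RC0_ok _ kC0_46_ok) al_nil))))))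

theorem covC0 : Cov (covR 0 1 0 1) rC0 (MCA.rA (81 * 177147) 4782969 gC0 lC0) :=
  cov_of LC0 (by decide +kernel) (al_cons cC0_0 (al_cons cC0_1 (al_cons cC0_2 (al_cons cC0_3 (al_cons cC0_4 (al_cons cC0_5 (al_cons cC0_6 (al_cons cC0_7 (al_cons cC0_8 al_nil)))))))))

def LS0 : List (List Bw) := [[kS0_0, kS0_1, kS0_2, kS0_3],
  [kS0_4, kS0_5, kS0_6, kS0_7],
  [kS0_8, kS0_9, kS0_10, kS0_11],
  [kS0_12, kS0_13, kS0_14, kS0_15],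
  [kS0_16, kS0_17, kS0_18, kS0_19],
  [kS0_20, kS0_21, kS0_22, kS0_23],
  [kS0_24, kS0_25, kS0_26],
  [kS0_27, kS0_28, kS0_29],
  [kS0_30, kS0_31, kS0_32],
  [kS0_33, kS0_34, kS0_35],
  [kS0_36, kS0_37],
  [kS0_38, kS0_39],
  [kS0_40, kS0_41, kS0_42],
  [kS0_43, kS0_44],
  [kS0_45],
  [kS0_46],
  [kS0_47]]

theorem cS0_0 : ∀ b ∈ ([kS0_0, kS0_1, kS0_2, kS0_3] : List Bw), BoxOK rS0 (MCA.rA (81 * 177147) 4782969 gS0 lS0) (itB b) :=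
  (al_cons (bok _ dS0_1 _ _ dS0_1_ok RS0_ok _ kS0_0_ok) (al_cons (bok _ dS0_1 _ _ dS0_1_ok RS0_ok _ kS0_1_ok) (al_cons (bok _ dS0_1 _ _ dS0_1_ok RS0_ok _ kS0_2_ok) (al_cons (bok _ dS0_1 _ _ dS0_1_ok RS0_ok _ kS0_3_ok) al_nil))))

theorem cS0_1 : ∀ b ∈ ([kS0_4, kS0_5, kS0_6, kS0_7] : List Bw), BoxOK rS0 (MCA.rA (81 * 177147) 4782969 gS0 lS0) (itB b) :=
  (al_cons (bok _ dS0_1 _ _ dS0_1_ok RS0_ok _ kS0_4_ok) (al_cons (bok _ dS0_1 _ _ dS0_1_ok RS0_ok _ kS0_5_ok) (al_cons (bok _ dS0_1 _ _ dS0_1_ok RS0_ok _ kS0_6_ok) (al_cons (bok _ dS0_1 _ _ dS0_1_ok RS0_ok _ kS0_7_ok) al_nil))))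

theorem cS0_2 : ∀ b ∈ ([kS0_8, kS0_9, kS0_10, kS0_11] : List Bw), BoxOK rS0 (MCA.rA (81 * 177147) 4782969 gS0 lS0) (itB b) :=
  (al_cons (bok _ dS0_1 _ _ dS0_1_ok RS0_ok _ kS0_8_ok) (al_cons (bok _ dS0_1 _ _ dS0_1_ok RS0_ok _ kS0_9_ok) (al_cons (bok _ dS0_1 _ _ dS0_1_ok RS0_ok _ kS0_10_ok) (al_cons (bok _ dS0_1 _ _ dS0_1_ok RS0_ok _ kS0_11_ok) al_nil))))

theorem cS0_3 : ∀ b ∈ ([kS0_12, kS0_13, kS0_14, kS0_15] : List Bw), BoxOK rS0 (MCA.rA (81 * 177147) 4782969 gS0 lS0) (itB b) :=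
  (al_cons (bok _ dS0_2 _ _ dS0_2_ok RS0_ok _ kS0_12_ok) (al_cons (bok _ dS0_2 _ _ dS0_2_ok RS0_ok _ kS0_13_ok) (al_cons (bok _ dS0_1 _ _ dS0_1_ok RS0_ok _ kS0_14_ok) (al_cons (bok _ dS0_1 _ _ dS0_1_ok RS0_ok _ kS0_15_ok) al_nil))))

theorem cS0_4 : ∀ b ∈ ([kS0_16, kS0_17, kS0_18, kS0_19] : List Bw), BoxOK rS0 (MCA.rA (81 * 177147) 4782969 gS0 lS0) (itB b) :=
  (al_cons (bok _ dS0_2 _ _ dS0_2_ok RS0_ok _ kS0_16_ok) (al_cons (bok _ dS0_2 _ _ dS0_2_ok RS0_ok _ kS0_17_ok) (al_cons (bok _ dS0_1 _ _ dS0_1_ok RS0_ok _ kS0_18_ok) (al_cons (bok _ dS0_1 _ _ dS0_1_ok RS0_ok _ kS0_19_ok) al_nil))))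

theorem cS0_5 : ∀ b ∈ ([kS0_20, kS0_21, kS0_22, kS0_23] : List Bw), BoxOK rS0 (MCA.rA (81 * 177147) 4782969 gS0 lS0) (itB b) :=
  (al_cons (bok _ dS0_2 _ _ dS0_2_ok RS0_ok _ kS0_20_ok) (al_cons (bok _ dS0_2 _ _ dS0_2_ok RS0_ok _ kS0_21_ok) (al_cons (bok _ dS0_1 _ _ dS0_1_ok RS0_ok _ kS0_22_ok) (al_cons (bok _ dS0_1 _ _ dS0_1_ok RS0_ok _ kS0_23_ok) al_nil))))

theorem cS0_6 : ∀ b ∈ ([kS0_24, kS0_25, kS0_26] : List Bw), BoxOK rS0 (MCA.rA (81 * 177147) 4782969 gS0 lS0) (itB b) :=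
  (al_cons (bok _ dS0_2 _ _ dS0_2_ok RS0_ok _ kS0_24_ok) (al_cons (bok _ dS0_2 _ _ dS0_2_ok RS0_ok _ kS0_25_ok) (al_cons (bok _ dS0_1 _ _ dS0_1_ok RS0_ok _ kS0_26_ok) al_nil)))

theorem cS0_7 : ∀ b ∈ ([kS0_27, kS0_28, kS0_29] : List Bw), BoxOK rS0 (MCA.rA (81 * 177147) 4782969 gS0 lS0) (itB b) :=
  (al_cons (bok _ dS0_2 _ _ dS0_2_ok RS0_ok _ kS0_27_ok) (al_cons (bok _ dS0_1 _ _ dS0_1_ok RS0_ok _ kS0_28_ok) (al_cons (bok _ dS0_1 _ _ dS0_1_ok RS0_ok _ kS0_29_ok) al_nil)))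

theorem cS0_8 : ∀ b ∈ ([kS0_30, kS0_31, kS0_32] : List Bw), BoxOK rS0 (MCA.rA (81 * 177147) 4782969 gS0 lS0) (itB b) :=
  (al_cons (bok _ dS0_2 _ _ dS0_2_ok RS0_ok _ kS0_30_ok) (al_cons (bok _ dS0_1 _ _ dS0_1_ok RS0_ok _ kS0_31_ok) (al_cons (bok _ dS0_1 _ _ dS0_1_ok RS0_ok _ kS0_32_ok) al_nil)))

theorem cS0_9 : ∀ b ∈ ([kS0_33, kS0_34, kS0_35] : List Bw), BoxOK rS0 (MCA.rA (81 * 177147) 4782969 gS0 lS0) (itB b) :=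
  (al_cons (bok _ dS0_2 _ _ dS0_2_ok RS0_ok _ kS0_33_ok) (al_cons (bok _ dS0_1 _ _ dS0_1_ok RS0_ok _ kS0_34_ok) (al_cons (bok _ dS0_1 _ _ dS0_1_ok RS0_ok _ kS0_35_ok) al_nil)))

theorem cS0_10 : ∀ b ∈ ([kS0_36, kS0_37] : List Bw), BoxOK rS0 (MCA.rA (81 * 177147) 4782969 gS0 lS0) (itB b) :=
  (al_cons (bok _ dS0_2 _ _ dS0_2_ok RS0_ok _ kS0_36_ok) (al_cons (bok _ dS0_1 _ _ dS0_1_ok RS0_ok _ kS0_37_ok) al_nil))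

theorem cS0_11 : ∀ b ∈ ([kS0_38, kS0_39] : List Bw), BoxOK rS0 (MCA.rA (81 * 177147) 4782969 gS0 lS0) (itB b) :=
  (al_cons (bok _ dS0_0 _ _ dS0_0_ok RS0_ok _ kS0_38_ok) (al_cons (bok _ dS0_3 _ _ dS0_3_ok RS0_ok _ kS0_39_ok) al_nil))

theorem cS0_12 : ∀ b ∈ ([kS0_40, kS0_41, kS0_42] : List Bw), BoxOK rS0 (MCA.rA (81 * 177147) 4782969 gS0 lS0) (itB b) :=
  (al_cons (bok _ dS0_3 _ _ dS0_3_ok RS0_ok _ kS0_40_ok) (al_cons (bok _ dS0_3 _ _ dS0_3_ok RS0_ok _ kS0_41_ok) (al_cons (bok _ dS0_3 _ _ dS0_3_ok RS0_ok _ kS0_42_ok) al_nil)))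

theorem cS0_13 : ∀ b ∈ ([kS0_43, kS0_44] : List Bw), BoxOK rS0 (MCA.rA (81 * 177147) 4782969 gS0 lS0) (itB b) :=
  (al_cons (bok _ dS0_4 _ _ dS0_4_ok RS0_ok _ kS0_43_ok) (al_cons (bok _ dS0_4 _ _ dS0_4_ok RS0_ok _ kS0_44_ok) al_nil))

theorem cS0_14 : ∀ b ∈ ([kS0_45] : List Bw), BoxOK rS0 (MCA.rA (81 * 177147) 4782969 gS0 lS0) (itB b) :=
  (al_cons (bok _ dS0_4 _ _ dS0_4_ok RS0_ok _ kS0_45_ok) al_nil)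

theorem cS0_15 : ∀ b ∈ ([kS0_46] : List Bw), BoxOK rS0 (MCA.rA (81 * 177147) 4782969 gS0 lS0) (itB b) :=
  (al_cons (bok _ dS0_3 _ _ dS0_3_ok RS0_ok _ kS0_46_ok) al_nil)

theorem cS0_16 : ∀ b ∈ ([kS0_47] : List Bw), BoxOK rS0 (MCA.rA (81 * 177147) 4782969 gS0 lS0) (itB b) :=
  (al_cons (bok _ dS0_3 _ _ dS0_3_ok RS0_ok _ kS0_47_ok) al_nil)

theorem covS0 : Cov (covS 0 1) rS0 (MCA.rA (81 * 177147) 4782969 gS0 lS0) :=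
  cov_of LS0 (by decide +kernel) (al_cons cS0_0 (al_cons cS0_1 (al_cons cS0_2 (al_cons cS0_3 (al_cons cS0_4 (al_cons cS0_5 (al_cons cS0_6 (al_cons cS0_7 (al_cons cS0_8 (al_cons cS0_9 (al_cons cS0_10 (al_cons cS0_11 (al_cons cS0_12 (al_cons cS0_13 (al_cons cS0_14 (al_cons cS0_15 (al_cons cS0_16 al_nil)))))))))))))))))

def LG0 : List (List Bw) := [[kG0_0],
  [kG0_1],
  [kG0_2],
  [kG0_3],
  [kG0_4],
  [kG0_5],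
  [kG0_6],
  [kG0_7],
  [kG0_8]]

theorem cG0_0 : ∀ b ∈ ([kG0_0] : List Bw), BoxOK rG0 (eGA 4782969 gC0 gS0 wG0) (itB b) :=
  (al_cons (bok _ dG0_0 _ _ dG0_0_ok RG0_ok _ kG0_0_ok) al_nil)

theorem cG0_1 : ∀ b ∈ ([kG0_1] : List Bw), BoxOK rG0 (eGA 4782969 gC0 gS0 wG0) (itB b) :=
  (al_cons (bok _ dG0_0 _ _ dG0_0_ok RG0_ok _ kG0_1_ok) al_nil)

theorem cG0_2 : ∀ b ∈ ([kG0_2] : List Bw), BoxOK rG0 (eGA 4782969 gC0 gS0 wG0) (itB b) :=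
  (al_cons (bok _ dG0_0 _ _ dG0_0_ok RG0_ok _ kG0_2_ok) al_nil)

theorem cG0_3 : ∀ b ∈ ([kG0_3] : List Bw), BoxOK rG0 (eGA 4782969 gC0 gS0 wG0) (itB b) :=
  (al_cons (bok _ dG0_0 _ _ dG0_0_ok RG0_ok _ kG0_3_ok) al_nil)

theorem cG0_4 : ∀ b ∈ ([kG0_4] : List Bw), BoxOK rG0 (eGA 4782969 gC0 gS0 wG0) (itB b) :=
  (al_cons (bok _ dG0_0 _ _ dG0_0_ok RG0_ok _ kG0_4_ok) al_nil)

theorem cG0_5 : ∀ b ∈ ([kG0_5] : List Bw), BoxOK rG0 (eGA 4782969 gC0 gS0 wG0) (itB b) :=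
  (al_cons (bok _ dG0_0 _ _ dG0_0_ok RG0_ok _ kG0_5_ok) al_nil)

theorem cG0_6 : ∀ b ∈ ([kG0_6] : List Bw), BoxOK rG0 (eGA 4782969 gC0 gS0 wG0) (itB b) :=
  (al_cons (bok _ dG0_0 _ _ dG0_0_ok RG0_ok _ kG0_6_ok) al_nil)

theorem cG0_7 : ∀ b ∈ ([kG0_7] : List Bw), BoxOK rG0 (eGA 4782969 gC0 gS0 wG0) (itB b) :=
  (al_cons (bok _ dG0_0 _ _ dG0_0_ok RG0_ok _ kG0_7_ok) al_nil)

theorem cG0_8 : ∀ b ∈ ([kG0_8] : List Bw), BoxOK rG0 (eGA 4782969 gC0 gS0 wG0) (itB b) :=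
  (al_cons (bok _ dG0_0 _ _ dG0_0_ok RG0_ok _ kG0_8_ok) al_nil)

theorem covG0 : Cov (covR 0 1 0 1) rG0 (eGA 4782969 gC0 gS0 wG0) :=
  cov_of LG0 (by decide +kernel) (al_cons cG0_0 (al_cons cG0_1 (al_cons cG0_2 (al_cons cG0_3 (al_cons cG0_4 (al_cons cG0_5 (al_cons cG0_6 (al_cons cG0_7 (al_cons cG0_8 al_nil)))))))))

def LX0 : List (List Bw) := [[kX0_0, kX0_1, kX0_2, kX0_3, kX0_4, kX0_5, kX0_6, kX0_7, kX0_8]]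

theorem cX0_0 : ∀ b ∈ ([kX0_0, kX0_1, kX0_2, kX0_3, kX0_4, kX0_5, kX0_6, kX0_7, kX0_8] : List Bw), BoxOK rX0 (eX 4782969 81 gC0 F1 wX0 vX0) (itB b) :=
  (al_cons (bok _ dX0_0 _ _ dX0_0_ok RX0_ok _ kX0_0_ok) (al_cons (bok _ dX0_0 _ _ dX0_0_ok RX0_ok _ kX0_1_ok) (al_cons (bok _ dX0_0 _ _ dX0_0_ok RX0_ok _ kX0_2_ok) (al_cons (bok _ dX0_0 _ _ dX0_0_ok RX0_ok _ kX0_3_ok) (al_cons (bok _ dX0_0 _ _ dX0_0_ok RX0_ok _ kX0_4_ok) (al_cons (bok _ dX0_0 _ _ dX0_0_ok RX0_ok _ kX0_5_ok) (al_cons (bok _ dX0_0 _ _ dX0_0_ok RX0_ok _ kX0_6_ok) (al_cons (bok _ dX0_0 _ _ dX0_0_ok RX0_ok _ kX0_7_ok) (al_cons (bok _ dX0_0 _ _ dX0_0_ok RX0_ok _ kX0_8_ok) al_nil)))))))))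

theorem covX0 : Cov (covR 0 1 0 1) rX0 (eX 4782969 81 gC0 F1 wX0 vX0) :=
  cov_of LX0 (by decide +kernel) (al_cons cX0_0 al_nil)

def LY0 : List (List Bw) := [[kY0_0],
  [kY0_1],
  [kY0_2],
  [kY0_3],
  [kY0_4],
  [kY0_5],
  [kY0_6],
  [kY0_7],
  [kY0_8]]

theorem cY0_0 : ∀ b ∈ ([kY0_0] : List Bw), BoxOK rY0 ((eC 4782969 81 gS0 F2 wY0 vY0).map M2) (itB b) :=
  (al_cons (bok _ dY0_0 _ _ dY0_0_ok RY0_ok _ kY0_0_ok) al_nil)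

theorem cY0_1 : ∀ b ∈ ([kY0_1] : List Bw), BoxOK rY0 ((eC 4782969 81 gS0 F2 wY0 vY0).map M2) (itB b) :=
  (al_cons (bok _ dY0_0 _ _ dY0_0_ok RY0_ok _ kY0_1_ok) al_nil)

theorem cY0_2 : ∀ b ∈ ([kY0_2] : List Bw), BoxOK rY0 ((eC 4782969 81 gS0 F2 wY0 vY0).map M2) (itB b) :=
  (al_cons (bok _ dY0_0 _ _ dY0_0_ok RY0_ok _ kY0_2_ok) al_nil)

theorem cY0_3 : ∀ b ∈ ([kY0_3] : List Bw), BoxOK rY0 ((eC 4782969 81 gS0 F2 wY0 vY0).map M2) (itB b) :=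
  (al_cons (bok _ dY0_0 _ _ dY0_0_ok RY0_ok _ kY0_3_ok) al_nil)

theorem cY0_4 : ∀ b ∈ ([kY0_4] : List Bw), BoxOK rY0 ((eC 4782969 81 gS0 F2 wY0 vY0).map M2) (itB b) :=
  (al_cons (bok _ dY0_0 _ _ dY0_0_ok RY0_ok _ kY0_4_ok) al_nil)

theorem cY0_5 : ∀ b ∈ ([kY0_5] : List Bw), BoxOK rY0 ((eC 4782969 81 gS0 F2 wY0 vY0).map M2) (itB b) :=
  (al_cons (bok _ dY0_0 _ _ dY0_0_ok RY0_ok _ kY0_5_ok) al_nil)

theorem cY0_6 : ∀ b ∈ ([kY0_6] : List Bw), BoxOK rY0 ((eC 4782969 81 gS0 F2 wY0 vY0).map M2) (itB b) :=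
  (al_cons (bok _ dY0_0 _ _ dY0_0_ok RY0_ok _ kY0_6_ok) al_nil)

theorem cY0_7 : ∀ b ∈ ([kY0_7] : List Bw), BoxOK rY0 ((eC 4782969 81 gS0 F2 wY0 vY0).map M2) (itB b) :=
  (al_cons (bok _ dY0_0 _ _ dY0_0_ok RY0_ok _ kY0_7_ok) al_nil)

theorem cY0_8 : ∀ b ∈ ([kY0_8] : List Bw), BoxOK rY0 ((eC 4782969 81 gS0 F2 wY0 vY0).map M2) (itB b) :=
  (al_cons (bok _ dY0_0 _ _ dY0_0_ok RY0_ok _ kY0_8_ok) al_nil)

theorem covY0 : Cov (covC 0 1) rY0 ((eC 4782969 81 gS0 F2 wY0 vY0).map M2) :=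
  cov_of LY0 (by decide +kernel) (al_cons cY0_0 (al_cons cY0_1 (al_cons cY0_2 (al_cons cY0_3 (al_cons cY0_4 (al_cons cY0_5 (al_cons cY0_6 (al_cons cY0_7 (al_cons cY0_8 al_nil)))))))))

theorem ax0 : Cov (covR 0 1 0 1) crA (eAY 4782969 gC0 gC0 []) := cov_zero (by decide +kernel)

def K2_0 : P := [[16817956, -26104457, 14227094], [-153567, 945080], [-12896470], [15770040], [-8270805]]

theorem K2_0_ok : eqP gS0.K (pMul curP K2_0) = true := by decide +kernel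

/-- the data of the square -/
def sq : Sqd where
  DL := 4782969
  DF := 177147
  kf := 81
  gC := fun _ => gC0
  gS := fun _ => gS0
  lC := fun _ => lC0
  lS := fun _ => lS0
  F1 := F1
  F2 := F2
  rC := fun _ => rC0
  rS := fun _ => rS0
  rA := fun _ => crA
  rG := fun _ => rG0
  rX := fun _ => rX0
  rY := fun _ => rY0
  wA := fun _ => []
  wG := fun _ => wG0
  wX := fun _ => wX0
  vX := fun _ => vX0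
  wY := fun _ => wY0
  vY := fun _ => vY0
  kC := fun _ => 352261
  kS := fun _ => 0

theorem F12 : F1 = F2 := by decide +kernel

theorem covX0' : Cov (covR 0 1 0 1) rX0 (eX 4782969 81 gC0 F2 wX0 vX0) := by
  have h := covX0
  rw [F12] at h
  exact h

theorem ok : sq.Ok where
  pDL := by decide
  pDF := by decide
  pkf := by decide
  wC := by decide +kernel
  wS := by decide +kernel
  lenC := by decide +kernel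
  lenS := by decide +kernel
  pkC := by decide +kernel
  pkS := by decide +kernel
  core := fun _ => covC0
  sliv := fun _ => covS0
  axis := fun _ => ax0
  gam := fun _ => covG0
  side := fun σ => match σ with
    | false => covX0
    | true => covX0'
  curv := fun _ => covY0
  tieC := by decide +kernel
  tieS := by decide +kernel
  K1 := by decide +kernel
  K2 := fun _ => ⟨K2_0, K2_0_ok⟩
  K3 := by decide +kernel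
  K4 := by decide +kernel
  K5 := by decide +kernel
  nA := by decide +kernel
  nG := by decide +kernel
  nX := by decide +kernel
  nY := by decide +kernel

theorem isC : sq.IsC (fun _ => qB 3000) where
  dl := rfl
  rC := fun σ => by cases σ <;> rfl
  rS := fun σ => by cases σ <;> rfl
  rA := fun σ => by cases σ <;> rfl
  rG := fun σ => by cases σ <;> rfl
  rX := fun σ => by cases σ <;> rfl
  rY := fun σ => by cases σ <;> rfl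
  lC := fun σ => by cases σ <;> rfl
  lS := fun σ => by cases σ <;> rfl

theorem kok : kOK sq 3980000 10000000000 = true := by decide +kernel

end Pool.Agent.MCD.S2
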